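import Pool.Agent.Helper16.SD.GoalsE

/-! Project SD: goal B_BND. -/

set_option autoImplicit false

namespace Pool.Agent.Helper98.SD.B_BND

open NumberField Module IsDedekindDomain
open Pool.Agent.Helper16.SD
open Pool.Agent.Helper51.SigLeo Pool.Agent.Helper51.RP Pool.Agent.Helper51.REC
open Pool.Agent.Helper38.FD (Chr)
open Pool.Agent.Helper38.FW (InDec)

section gal

variable {K : Type} [Field K] (F : IntermediateField K (AlgebraicClosure K)) [Normal K F]

lemma rn_one_iff (g : AlgebraicClosure K ≃ₐ[K] AlgebraicClosure K) :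
    AlgEquiv.restrictNormalHom F g = 1 ↔ ∀ x ∈ F, g x = x := by
  constructor
  · intro h x hx
    have h1 := AlgEquiv.restrictNormal_commutes g F ⟨x, hx⟩
    have h2 : g.restrictNormal F = 1 := h
    rw [h2] at h1
    exact h1.symm
  · intro h
    apply AlgEquiv.ext
    intro x
    apply (algebraMap F (AlgebraicClosure K)).injective
    have h1 := AlgEquiv.restrictNormal_commutes g F x
    have h3 : g (algebraMap F (AlgebraicClosure K) x) = algebraMap F (AlgebraicClosure K) x :=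
      h x x.2
    exact h1.trans h3

lemma fix_conj (g a : AlgebraicClosure K ≃ₐ[K] AlgebraicClosure K) (ha : ∀ x ∈ F, a x = x) :
    ∀ x ∈ F, (g * a * g⁻¹) x = x := by
  rw [← rn_one_iff F] at ha ⊢
  rw [map_mul, map_mul, ha, mul_one, ← map_mul, mul_inv_cancel, map_one]

lemma fix_mul {g h : AlgebraicClosure K ≃ₐ[K] AlgebraicClosure K} (hg : ∀ x ∈ F, g x = x)
    (hh : ∀ x ∈ F, h x = x) : ∀ x ∈ F, (g * h) x = x := by
  intro x hx
  rw [AlgEquiv.mul_apply, hh x hx, hg x hx]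

lemma fix_inv {g : AlgebraicClosure K ≃ₐ[K] AlgebraicClosure K} (hg : ∀ x ∈ F, g x = x) :
    ∀ x ∈ F, (g⁻¹) x = x := by
  rw [← rn_one_iff F] at hg ⊢
  rw [map_inv, hg, inv_one]

lemma exists_sect : ∃ s : (F ≃ₐ[K] F) → (AlgebraicClosure K ≃ₐ[K] AlgebraicClosure K),
    ∀ g, AlgEquiv.restrictNormalHom F (s g) = g :=
  (AlgEquiv.restrictNormalHom_surjective (AlgebraicClosure K)).hasRightInverse

/-- a character which is trivial on the stabiliser of `F` factors through `Gal(F/K)` -/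
lemma factor {A : Type} [CommGroup A] (ν : (AlgebraicClosure K ≃ₐ[K] AlgebraicClosure K) →* A)
    (h : ∀ g : AlgebraicClosure K ≃ₐ[K] AlgebraicClosure K, (∀ x ∈ F, g x = x) → ν g = 1) :
    ∃ νF : (F ≃ₐ[K] F) →* A, ∀ g, νF (AlgEquiv.restrictNormalHom F g) = ν g := by
  have h' : ∀ g g' : AlgebraicClosure K ≃ₐ[K] AlgebraicClosure K,
      AlgEquiv.restrictNormalHom F g = AlgEquiv.restrictNormalHom F g' → ν g = ν g' := by
    intro g g' hgg
    have h1 : AlgEquiv.restrictNormalHom F (g⁻¹ * g') = 1 := by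
      rw [map_mul, map_inv, hgg, inv_mul_cancel]
    have h2 := h _ ((rn_one_iff F _).1 h1)
    rw [map_mul, map_inv, inv_mul_eq_one] at h2
    exact h2
  obtain ⟨s, hs⟩ := exists_sect F
  refine ⟨⟨⟨fun g => ν (s g), ?_⟩, ?_⟩, ?_⟩
  · exact h _ ((rn_one_iff F _).1 (hs 1))
  · intro a b
    change ν (s (a * b)) = ν (s a) * ν (s b)
    rw [← map_mul]
    apply h'
    rw [map_mul, hs, hs, hs]
  · intro g
    exact h' _ _ (hs _)

end gal

section act

variable {p : ℕ} [Fact p.Prime] {O : Type} [CommRing O] [Algebra ℤ_[p] O] {X : Type}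
  [AddCommGroup X] [Module O X]

lemma act_int {k : ℕ} (hX : ∀ x : X, p ^ k • x = 0) (e : ℤ_[p]) {n : ℕ} (hn : k ≤ n) (x : X) :
    algebraMap ℤ_[p] O e • x = (e.appr n) • x := by
  have h0 : p ^ n • x = 0 := by
    obtain ⟨d, rfl⟩ := Nat.exists_eq_add_of_le hn
    rw [pow_add, mul_comm, mul_smul, hX, smul_zero]
  have h1 := PadicInt.appr_spec n e
  rw [Ideal.mem_span_singleton'] at h1
  obtain ⟨y, hy⟩ := h1
  have h2 : e = (e.appr n : ℤ_[p]) + y * (p : ℤ_[p]) ^ n := by rw [hy]; ring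
  have h3 : algebraMap ℤ_[p] O e = (e.appr n : O) + algebraMap ℤ_[p] O y * ((p ^ n : ℕ) : O) := by
    conv_lhs => rw [h2]
    rw [map_add, map_mul, map_natCast, map_pow, map_natCast, Nat.cast_pow]
  rw [h3, add_smul, mul_smul, Nat.cast_smul_eq_nsmul O (p ^ n) x, h0, smul_zero, add_zero,
    Nat.cast_smul_eq_nsmul]

lemma appr_cast (e : ℤ_[p]) {k n : ℕ} (hn : k ≤ n) :
    ((e.appr n : ℕ) : ZMod (p ^ k)) = PadicInt.toZModPow k e := by
  have h1 := PadicInt.appr_spec n e
  rw [Ideal.mem_span_singleton'] at h1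
  obtain ⟨y, hy⟩ := h1
  have h2 : e = (e.appr n : ℤ_[p]) + y * (p : ℤ_[p]) ^ n := by rw [hy]; ring
  have h4 : ((p : ZMod (p ^ k)) ^ n) = 0 := by
    obtain ⟨d, rfl⟩ := Nat.exists_eq_add_of_le hn
    rw [pow_add]
    have : (p : ZMod (p ^ k)) ^ k = 0 := by
      rw [← Nat.cast_pow]
      exact ZMod.natCast_self _
    rw [this, zero_mul]
  conv_rhs => rw [h2]
  rw [map_add, map_mul, map_pow, map_natCast, map_natCast, h4, mul_zero, add_zero]

/-- additive on a subgroup: sums of natural multiples -/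
lemma add_sum (M : AddSubgroup X) {R : Type} [Ring R] (l : X → R)
    (hl : ∀ x ∈ M, ∀ y ∈ M, l (x + y) = l x + l y) {ι : Type} (S : Finset ι) (n : ι → ℕ)
    (y : ι → X) (hy : ∀ i, y i ∈ M) :
    l (∑ i ∈ S, n i • y i) = ∑ i ∈ S, (n i : R) * l (y i) := by
  classical
  have h0 : l 0 = 0 := by
    have := hl 0 M.zero_mem 0 M.zero_mem
    rw [add_zero] at this
    exact left_eq_add.1 this
  have hn : ∀ (m : ℕ) (x : X), x ∈ M → l (m • x) = (m : R) * l x := by
    intro m x hx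
    induction m with
    | zero => rw [zero_smul, h0, Nat.cast_zero, zero_mul]
    | succ m ih =>
      rw [succ_nsmul, hl _ (M.nsmul_mem hx m) _ hx, ih, Nat.cast_succ, add_mul, one_mul]
  induction S using Finset.induction_on with
  | empty => rw [Finset.sum_empty, Finset.sum_empty, h0]
  | insert a S ha ih =>
    rw [Finset.sum_insert ha, Finset.sum_insert ha,
      hl _ (M.nsmul_mem (hy a) _) _ (M.sum_mem fun i _ => M.nsmul_mem (hy i) _), ih,
      hn _ _ (hy a)]

end act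

/-- the `p`-th roots of unity are in `F` -/
lemma exists_prim {p : ℕ} [Fact p.Prime] {K : Type} [Field K] [NumberField K]
    {η : ℕ → Chr K (AlgebraicClosure K) ℂ_[p]}
    {om u : (AlgebraicClosure K ≃ₐ[K] AlgebraicClosure K) →* ℤ_[p]ˣ} (hC : Cyc η om u)
    (F : IntermediateField K (AlgebraicClosure K)) [IsGalois K F]
    (hF : ∀ g : AlgebraicClosure K ≃ₐ[K] AlgebraicClosure K, (∀ x ∈ F, g x = x) → om g = 1) :
    ∃ ε : F, IsPrimitiveRoot ε p := by
  have hp0 : (p : AlgebraicClosure K) ≠ 0 := by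
    exact_mod_cast (Fact.out : p.Prime).ne_zero
  have : NeZero (p : AlgebraicClosure K) := ⟨hp0⟩
  obtain ⟨ζ, hζ⟩ := (HasEnoughRootsOfUnity.exists_primitiveRoot (AlgebraicClosure K) p)
  have hmem : ζ ∈ F := by
    have h1 : ζ ∈ IntermediateField.fixedField F.fixingSubgroup := by
      rw [IntermediateField.mem_fixedField_iff]
      intro g hg
      have hg' : ∀ x ∈ F, g x = x := by
        intro x hx
        exact (IntermediateField.mem_fixingSubgroup_iff F g).1 hg x hx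
      have hom := hF g hg'
      have hm := hC.mul g
      rw [hom, one_mul] at hm
      have hu := hC.u_one g
      rw [← hm] at hu
      have hsp := cyclotomicCharacter.spec (L := AlgebraicClosure K) p (n := 1)
        (g : AlgebraicClosure K ≃+* AlgebraicClosure K) ζ (by rw [pow_one]; exact hζ.pow_eq_one)
      have hcy : cyclotomicCharacter (AlgebraicClosure K) p
        (g : AlgebraicClosure K ≃+* AlgebraicClosure K) = cyc p g := rfl
      rw [hcy] at hsp
      have hz : PadicInt.toZModPow 1 ((cyc p g : ℤ_[p]ˣ) : ℤ_[p]) = 1 := by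
        have h5 : ((cyc p g : ℤ_[p]ˣ) : ℤ_[p]) - 1 ∈
            RingHom.ker (PadicInt.toZModPow (p := p) 1) := by
          rw [PadicInt.ker_toZModPow, Ideal.mem_span_singleton, pow_one]
          exact hu
        rw [RingHom.mem_ker, map_sub, map_one, sub_eq_zero] at h5
        exact h5
      rw [hz] at hsp
      have : Fact (1 < p ^ 1) := ⟨by rw [pow_one]; exact (Fact.out : p.Prime).one_lt⟩
      rw [ZMod.val_one, pow_one] at hsp
      exact hsp
    rwa [InfiniteGalois.fixedField_fixingSubgroup] at h1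
  refine ⟨⟨ζ, hmem⟩, ?_⟩
  have h2 : (algebraMap F (AlgebraicClosure K)) ⟨ζ, hmem⟩ = ζ := rfl
  rw [← h2] at hζ
  exact hζ.of_map_of_injective (algebraMap F (AlgebraicClosure K)).injective

theorem t : Pool.Agent.Helper16.SD.B_BND := by
  classical
  intro hJ hEPS hLAM hCOR1 hCOR2 hLIFT hEXT hRAM hCNG hKUM hACT hDNS
  intro p _ hp2 K _ _ _ hSp Lg η om u hC χ ν F _ _ B hB O _ _ _ _ _ j c cn hco
  -- triviality on the stabiliser of F
  have hχF : ∀ g : AlgebraicClosure K ≃ₐ[K] AlgebraicClosure K, (∀ x ∈ F, g x = x) → χ g = 1 :=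
    fun g hg => ((hB.cutF g).1 hg).1
  have homF : ∀ g : AlgebraicClosure K ≃ₐ[K] AlgebraicClosure K, (∀ x ∈ F, g x = x) → om g = 1 :=
    fun g hg => ((hB.cutF g).1 hg).2
  have hνF : ∀ g : AlgebraicClosure K ≃ₐ[K] AlgebraicClosure K, (∀ x ∈ F, g x = x) → ν g = 1 := by
    intro g hg
    have h1 := hB.mul g
    rw [hχF g hg, homF g hg] at h1
    rw [Units.val_one, one_mul, Units.val_one, map_one] at h1
    exact Units.ext h1
  obtain ⟨νF, hν⟩ := factor F ν hνF
  obtain ⟨s, hs⟩ := exists_sect F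
  -- commutativity
  have hcomm : ∀ g h : F ≃ₐ[K] F, g * h = h * g := by
    intro g h
    have h1 : ∀ x ∈ F, (s g * s h * (s g)⁻¹ * (s h)⁻¹) x = x := by
      rw [hB.cutF]
      constructor
      · rw [map_mul, map_mul, map_mul, map_inv, map_inv, mul_comm (χ (s g)) (χ (s h)),
          mul_inv_cancel_right, mul_inv_cancel]
      · rw [map_mul, map_mul, map_mul, map_inv, map_inv, mul_comm (om (s g)) (om (s h)),
          mul_inv_cancel_right, mul_inv_cancel]
    rw [← rn_one_iff F] at h1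
    rw [map_mul, map_mul, map_mul, map_inv, map_inv, hs, hs] at h1
    rw [mul_inv_eq_one, mul_inv_eq_iff_eq_mul] at h1
    exact h1
  -- injectivity on the elements of p-power order
  have hinj : ∀ g : F ≃ₐ[K] F, (∃ n : ℕ, g ^ p ^ n = 1) → νF g = 1 → g = 1 := by
    rintro g ⟨n, hn⟩ hg
    have h1 : AlgEquiv.restrictNormalHom F (s g ^ p ^ n) = 1 := by
      rw [map_pow, hs, hn]
    have h2 := homF _ ((rn_one_iff F _).1 h1)
    rw [map_pow] at h2
    have h3 := hC.om_pow (s g)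
    have h4 : Nat.Coprime (p ^ n) (p - 1) := by
      apply Nat.Coprime.pow_left
      have h5 : Nat.Coprime (p - 1) p := by
        have := (Nat.coprime_primes (Fact.out : p.Prime) (Fact.out : p.Prime))
        have h6 : 1 ≤ p := (Fact.out : p.Prime).one_le
        have h7 : (p - 1) + 1 = p := Nat.sub_add_cancel h6
        conv_rhs => rw [← h7]
        exact (Nat.coprime_self_add_right.2 (Nat.coprime_one_right _))
      exact h5.symm
    have h5 : om (s g) = 1 := by
      have h6 : orderOf (om (s g)) ∣ p ^ n := orderOf_dvd_of_pow_eq_one h2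
      have h7 : orderOf (om (s g)) ∣ p - 1 := orderOf_dvd_of_pow_eq_one h3
      have h8 := Nat.dvd_gcd h6 h7
      rw [h4] at h8
      exact orderOf_eq_one_iff.1 (Nat.dvd_one.1 h8)
    have h6 : ν (s g) = 1 := by rw [← hν, hs, hg]
    have h7 := hB.mul (s g)
    rw [h5, h6, Units.val_one, mul_one, Units.val_one, map_one] at h7
    have h8 : χ (s g) = 1 := Units.ext h7
    have h9 : ∀ x ∈ F, (s g) x = x := (hB.cutF _).2 ⟨h8, h5⟩
    rw [← rn_one_iff F, hs] at h9
    exact h9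
  obtain ⟨e, f, he, hfe⟩ := hEPS p hp2 (F ≃ₐ[K] F) hcomm νF hinj
  obtain ⟨b₀, hb₀⟩ := hJ p K hSp Lg F hcomm ν hνF B hB.ne hB.indep e (by
    intro ψ hψ
    apply he ψ
    rintro ⟨σ, hσ⟩
    apply hψ
    refine ⟨σ, fun g => ?_⟩
    rw [hσ, hν])
  obtain ⟨ε, hε⟩ := exists_prim hC F homF
  refine ⟨b₀ + 1, ?_⟩
  intro k X _ _ hX hXl Φ R _ _ hFR hΦadd hΦc hΦR hW hΦdec a₀ ha₀
  by_contra hne
  -- the subgroup M
  have hΦ1 : Φ 1 = 0 := by
    have h1 := hΦadd 1 1 (fun x _ => rfl) (fun x _ => rfl)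
    rw [mul_one] at h1
    exact left_eq_add.1 h1
  let M : AddSubgroup X :=
    { carrier := {x | ∃ a : AlgebraicClosure K ≃ₐ[K] AlgebraicClosure K, (∀ y ∈ F, a y = y) ∧ Φ a = x}
      add_mem' := by
        rintro _ _ ⟨a, ha, rfl⟩ ⟨b, hb, rfl⟩
        exact ⟨a * b, fix_mul F ha hb, hΦadd a b ha hb⟩
      zero_mem' := ⟨1, fun x _ => rfl, hΦ1⟩
      neg_mem' := by
        rintro _ ⟨a, ha, rfl⟩
        refine ⟨a⁻¹, fix_inv F ha, ?_⟩
        have h1 := hΦadd a a⁻¹ ha (fix_inv F ha)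
        rw [mul_inv_cancel, hΦ1] at h1
        exact (neg_eq_of_add_eq_zero_right h1.symm).symm }
  have hM : ∀ a : AlgebraicClosure K ≃ₐ[K] AlgebraicClosure K, (∀ y ∈ F, a y = y) → Φ a ∈ M :=
    fun a ha => ⟨a, ha, rfl⟩
  let EO : (( F ≃ₐ[K] F) → ℤ_[p]) → O := fun e => ∑ g, algebraMap ℤ_[p] O (e g) * cn (s g)
  have hjE : ∀ e : (F ≃ₐ[K] F) → ℤ_[p], j (EO e) = ∑ g, zp p (e g) * (νF g : ℂ_[p]ˣ) := by
    intro e
    change j (∑ g, algebraMap ℤ_[p] O (e g) * cn (s g)) = _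
    rw [map_sum]
    refine Finset.sum_congr rfl fun g _ => ?_
    rw [map_mul, hco.alg, hco.cn, ← hν, hs]
    rfl
  have hmul : EO f * EO e ^ 2 = (p : O) := by
    apply hco.inj
    rw [map_mul, map_pow, hjE, hjE, hfe, map_natCast]
  -- action on Φ a
  have hact : ∀ (e : (F ≃ₐ[K] F) → ℤ_[p]) (n : ℕ), k ≤ n →
      ∀ a : AlgebraicClosure K ≃ₐ[K] AlgebraicClosure K, (∀ y ∈ F, a y = y) →
      EO e • Φ a = ∑ g, (e g).appr n • Φ (s g * a * (s g)⁻¹) := by
    intro e n hn a ha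
    change (∑ g, algebraMap ℤ_[p] O (e g) * cn (s g)) • Φ a = _
    rw [Finset.sum_smul]
    refine Finset.sum_congr rfl fun g _ => ?_
    rw [mul_smul, ← hΦc (s g) a ha, act_int hX (e g) hn]
  have hEM : ∀ (e : (F ≃ₐ[K] F) → ℤ_[p]), ∀ x ∈ M, EO e • x ∈ M := by
    rintro e _ ⟨a, ha, rfl⟩
    rw [hact e k le_rfl a ha]
    exact M.sum_mem fun g _ => M.nsmul_mem (hM _ (fix_conj F _ _ ha)) _
  obtain ⟨k', l, hk', hl, x, hxM, hxu⟩ := hLAM p k X hX hXl M
    (DistribSMul.toAddMonoidHom X (EO e)) (DistribSMul.toAddMonoidHom X (EO f))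
    (hEM e) (hEM f)
    (by
      intro x
      change EO f • EO e • EO e • x = p • x
      rw [smul_smul, smul_smul, ← Nat.cast_smul_eq_nsmul O p x, ← hmul]
      ring_nf)
    (by
      intro x
      change EO e • EO f • x = EO f • EO e • x
      rw [smul_comm])
    b₀ ⟨Φ a₀, hM a₀ ha₀, hne⟩
  have hl0 : l 0 = 0 := by
    have := hl 0 M.zero_mem 0 M.zero_mem
    rw [add_zero] at this
    exact left_eq_add.1 this
  obtain ⟨a₁, ha₁, rfl⟩ := hxM
  change IsUnit (l (EO e • Φ a₁)) at hxu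
  have hk1 : 1 ≤ k' := le_trans (Nat.le_add_left 1 b₀) hk'
  -- the function φ
  obtain ⟨N, ϑ, x, Z, c', hZ, hc', hN, hZ', hr⟩ := hCOR1 hLIFT hEXT hRAM hCNG hKUM p hp2 K F R hFR
    ε hε B hB.ne k' hk1 (fun a => l (Φ a))
    (by
      intro g h hg hh
      change l (Φ (g * h)) = l (Φ g) + l (Φ h)
      rw [hΦadd g h hg hh]
      exact hl _ (hM g hg) _ (hM h hh))
    (by
      intro g hg
      change l (Φ g) = 0
      rw [hΦR g hg, hl0])
    (by
      obtain ⟨a₂, ha₂, h2⟩ := hEM e _ (hM a₁ ha₁)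
      refine ⟨a₂, ha₂, ?_⟩
      change IsUnit (l (Φ a₂))
      rw [h2]
      exact hxu)
    hW
    (by
      intro τ hτ g hg hd
      change l (Φ g) = 0
      rw [hΦdec τ hτ g hg hd, hl0])
  have hfin := hCOR2 hACT hDNS p K F s hs ε hε B k' hk1 (fun a => l (Φ a)) e b₀ ϑ x Z c' hZ hc'
    (hb₀ k' N ϑ hN) hZ' hr
    (by
      refine ⟨a₁, ha₁, ?_⟩
      have h3 : l (EO e • Φ a₁) =
          ∑ g, PadicInt.toZModPow k' (e g) * l (Φ (s g * a₁ * (s g)⁻¹)) := by
        rw [hact e (max k k') (le_max_left _ _) a₁ ha₁,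
          add_sum M l hl Finset.univ _ _ (fun g => hM _ (fix_conj F _ _ ha₁))]
        refine Finset.sum_congr rfl fun g _ => ?_
        rw [appr_cast (e g) (le_max_right k k')]
      change IsUnit (∑ g, PadicInt.toZModPow k' (e g) * l (Φ (s g * a₁ * (s g)⁻¹)))
      rw [← h3]
      exact hxu)
  omega

end Pool.Agent.Helper98.SD.B_BND
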