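import Pool.Agent.Helper71.SD.Goals

namespace Pool.Agent.Helper71.SD.SIDE1

open Pool.Agent.Helper71.AHtpy SimpleGraph

theorem aff_tog (π : Equiv.Perm E) (w S : Finset E) (k : E) :
    aff π.toEmbedding w (tog k S) = tog (π k) (aff π.toEmbedding w S) := by
  ext j
  simp only [aff, tog, Finset.mem_symmDiff, Finset.mem_map, Equiv.coe_toEmbedding,
    Finset.mem_singleton]
  obtain ⟨l, rfl⟩ := π.surjective j
  have h1 : ∀ T : Finset E, (∃ a, a ∈ T ∧ π a = π l) ↔ l ∈ T := by
    intro T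
    constructor
    · rintro ⟨a, ha, h⟩
      rwa [← π.injective h]
    · intro h
      exact ⟨l, h, rfl⟩
  have h2 : (∃ a, ((a ∈ S ∧ ¬ a = k) ∨ (a = k ∧ a ∉ S)) ∧ π a = π l) ↔
      ((l ∈ S ∧ ¬ l = k) ∨ (l = k ∧ l ∉ S)) := by
    constructor
    · rintro ⟨a, ha, h⟩
      rwa [← π.injective h]
    · intro h
      exact ⟨l, h, rfl⟩
  have h3 : π l = π k ↔ l = k := π.injective.eq_iff
  rw [h1 S, h2, h3]
  tauto

theorem tog_inj {k l : E} {S : Finset E} (h : tog k S = tog l S) : k = l := by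
  by_contra hkl
  have h1 : k ∈ tog k S ↔ k ∈ tog l S := by rw [h]
  rw [mem_tog, mem_tog] at h1
  by_cases hk : k ∈ S
  · simp [hk, hkl] at h1
  · simp [hk, hkl] at h1

theorem side1 : S_MIDPT → S_NBR → S_LBL → S_L1UP → S_XC1 → S_XC2 → S_SIDE1 := by
  intro hM hN hL hU hX1 hX2 V G A σ₀ σ₁ hP i e hE S hS hie
  obtain ⟨π, w, hEB⟩ := hE
  obtain ⟨x1, x2, x3, _, _, x6, _, x8⟩ := hX1
  obtain ⟨_, y2, _⟩ := hX2
  obtain ⟨hgm, hbased, _⟩ := hEB
  -- values of rho at sets with large counts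
  have hρ : ∀ T : Finset E, (∃ a, 6 ≤ cnt a T) → (∃ a, 6 ≤ cnt a Tᶜ) →
      side σ₀ σ₁ i e (aff π.toEmbedding w T) = pt 6 (A.b (.mid T)) 3 := by
    intro T h1 h2
    have h := hU V G A 6 3 (fun S => side σ₀ σ₁ i e (aff π.toEmbedding w S)) hgm (by norm_num)
      (by norm_num) hbased T (by obtain ⟨a, ha⟩ := h1; exact ⟨a, by omega⟩)
      (by obtain ⟨a, ha⟩ := h2; exact ⟨a, by omega⟩)
    have hx : xc T = .mid T := (y2 T T).mpr ⟨rfl, h1, h2⟩
    rw [hx] at h
    exact h
  have ptinj : ∀ T T' : Finset E, pt 6 (A.b (.mid T)) 3 = pt 6 (A.b (.mid T')) 3 → T = T' := by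
    intro T T' h
    rw [pt_eq_iff (by norm_num) (by norm_num)] at h
    rcases h.2 with h0 | h0 | h0
    · omega
    · omega
    · have := A.b_inj h0
      exact C0.mid.inj this
  obtain ⟨S₀, hc, hi0, a, ha8, ha12⟩ := hM π w i e
  have hψ0 : aff π.toEmbedding w S₀ = S₀ := by
    have h1 := hρ S₀ ⟨a, by omega⟩ ⟨a, by rw [(x1 a S₀).2]; omega⟩
    have h2 : side σ₀ σ₁ i e (aff π.toEmbedding w S₀) = σ₀ (aff π.toEmbedding w S₀) := by
      simp only [side, hi0, if_true]
    rw [h2, (hN V G A σ₀ σ₁ hP _ ⟨by omega, by omega⟩).1] at h1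
    exact ptinj _ _ h1
  have hπ : ∀ k, π k ≠ i → π k = k := by
    intro k hk
    have h0 : aff π.toEmbedding w (tog k S₀) = tog (π k) S₀ := by rw [aff_tog, hψ0]
    have hca : cnt a (tog k S₀) + 1 ≥ cnt a S₀ ∧ cnt a (tog k S₀) ≤ cnt a S₀ + 1 := by
      obtain ⟨z1, z2, z3⟩ := x3 a k S₀
      by_cases hb : blk k = a
      · by_cases hk' : k ∈ S₀
        · have := z2 hb hk'; omega
        · have := z3 hb hk'; omega
      · have := z1 hb; omega
    have h1 := hρ (tog k S₀) ⟨a, by omega⟩ ⟨a, by rw [(x1 a _).2]; omega⟩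
    have hst : decide (i ∈ tog (π k) S₀) = e := by
      rw [← hi0, hψ0]
      congr 1
      rw [mem_tog]
      have : i ≠ π k := fun h => hk h.symm
      simp [this]
    have hcard : Bd 6 (tog (π k) S₀) := by
      obtain ⟨c1, c2⟩ := x8 (π k) S₀
      rw [hψ0] at hc
      by_cases hk' : π k ∈ S₀
      · have := c1 hk'; exact ⟨by omega, by omega⟩
      · have := c2 hk'; exact ⟨by omega, by omega⟩
    have h2 : side σ₀ σ₁ i e (aff π.toEmbedding w (tog k S₀)) = σ₀ (tog (π k) S₀) := by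
      rw [h0]
      simp only [side, hst, if_true]
    rw [h2, (hN V G A σ₀ σ₁ hP _ hcard).1] at h1
    exact tog_inj (ptinj _ _ h1)
  have hπ1 : ∀ k, π k = k := by
    intro k
    by_cases hk : π k = i
    · by_contra hne
      have hki : k ≠ i := fun h => hne (by rw [hk, h])
      have h1 : π i ≠ i := fun h => hki (π.injective (by rw [hk, h]))
      exact h1 (hπ i h1)
    · exact hπ k hk
  have hmap : ∀ T : Finset E, T.map π.toEmbedding = T := by
    intro T
    ext j
    simp only [Finset.mem_map, Equiv.coe_toEmbedding]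
    constructor
    · rintro ⟨l, hl, rfl⟩
      rwa [hπ1]
    · intro h
      exact ⟨j, h, hπ1 j⟩
  have hw : w = ∅ := by
    have h1 : symmDiff w S₀ = S₀ := by
      have := hψ0
      rwa [aff, hmap] at this
    have h2 : symmDiff w S₀ = symmDiff (∅ : Finset E) S₀ := by
      rw [h1]
      exact (bot_symmDiff S₀).symm
    exact symmDiff_left_injective S₀ h2
  have hψ : ∀ T, aff π.toEmbedding w T = T := by
    intro T
    rw [aff, hmap, hw]
    simp
  -- final step
  have hcard : 27 ≤ (tog i S).card ∧ (tog i S).card ≤ 33 := by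
    obtain ⟨c1, c2⟩ := x8 i S
    obtain ⟨b1, b2⟩ := hS
    by_cases hk' : i ∈ S
    · have := c1 hk'; exact ⟨by omega, by omega⟩
    · have := c2 hk'; exact ⟨by omega, by omega⟩
  have hsum := x2 (tog i S)
  have h6 : ∃ a, 6 ≤ cnt a (tog i S) := by
    by_contra hcon
    push Not at hcon
    have := hcon 0
    have := hcon 1
    have := hcon 2
    omega
  have h6' : ∃ a, 6 ≤ cnt a (tog i S)ᶜ := by
    by_contra hcon
    push Not at hcon
    have e0 := hcon 0
    have e1 := hcon 1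
    have e2 := hcon 2
    rw [(x1 _ _).2] at e0 e1 e2
    omega
  have h := hρ (tog i S) h6 h6'
  rw [hψ] at h
  have hst : decide (i ∈ tog i S) ≠ e := by
    rw [← hie]
    intro h'
    rw [decide_eq_decide] at h'
    rw [mem_tog] at h'
    by_cases hk' : i ∈ S
    · simp [hk'] at h'
    · simp [hk'] at h'
  simp only [side, hst, if_false, tog_tog] at h
  exact (hL V G A σ₁ S i).mpr h

end Pool.Agent.Helper71.SD.SIDE1
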